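import Mathlib

/-!
# MP_0bf243_co, Q1: every binary `7 × 7` square extends to a rich plane

* `palFactors w` is the set of palindromic factors of the finite word `w : List Bool` (the empty
  word included); `IsRich w` says that `w` has exactly `|w| + 1` of them.
* `IsRichPlane w'` for `w' : ℤ → ℤ → Bool`: all finite horizontal and vertical factors are rich.
* a two-dimensional binary word is a map `ℤ → ℤ → Option Bool` (`none` = empty cell).

The extension is `w'(i, j) = w(σ i, σ j)` where `σ : ℤ → {0, …, 6}` is the index map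
`⋯ 01234 01234 0123456 23456 23456 ⋯` (empty cells of the block are filled with `0`).  So it
suffices to see that for every word `u` with seven letters the two-way infinite word `u ∘ σ` is
rich.  A finite word is rich if each of its letters, when it is appended, creates a palindromic
suffix without earlier occurrence.  This is checked by computation for all 128 words `u` in small
windows, and two kinds of certificates (`CertS`, `CertT`) are shown to propagate when the window
grows by five letters on both sides; letters on the left are handled by the symmetry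
`σ (6 - t) = 6 - σ t`.
-/

set_option autoImplicit false

namespace Pool.Agent.Results.MP_0bf243_co.RichPlane

/-- the set of palindromic factors of a finite word (the empty word included) -/
def palFactors (w : List Bool) : Set (List Bool) := {p | p <:+: w ∧ p.reverse = p}

/-- a finite word `w` is rich if it has exactly `|w| + 1` distinct palindromic factors -/
def IsRich (w : List Bool) : Prop := (palFactors w).ncard = w.length + 1

/-- A map `w : ℤ → ℤ → Bool` is a rich plane if every horizontal and every vertical finite factor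
is rich. -/
def IsRichPlane (w : ℤ → ℤ → Bool) : Prop :=
  (∀ (i j : ℤ) (n : ℕ), IsRich ((List.range n).map fun t : ℕ => w i (j + t))) ∧
    ∀ (i j : ℤ) (n : ℕ), IsRich ((List.range n).map fun t : ℕ => w (i + t) j)

/-! ## Rich words -/

lemma palFactors_finite (w : List Bool) : (palFactors w).Finite := by
  apply (w.sublists.toFinset : Set (List Bool)).toFinite.subset
  intro p hp
  simp only [List.coe_toFinset, List.mem_sublists, Set.mem_ofPred_eq]
  exact hp.1.sublist

lemma palFactors_reverse (w : List Bool) : palFactors w.reverse = palFactors w := by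
  ext p
  simp only [palFactors, Set.mem_ofPred_eq]
  constructor
  · rintro ⟨h1, h2⟩
    refine ⟨?_, h2⟩
    rw [← h2, List.reverse_infix] at h1
    exact h1
  · rintro ⟨h1, h2⟩
    refine ⟨?_, h2⟩
    rw [← h2, List.reverse_infix]
    exact h1

lemma isRich_reverse {w : List Bool} : IsRich w.reverse ↔ IsRich w := by
  unfold IsRich
  rw [palFactors_reverse, List.length_reverse]

/-- two palindromic suffixes of `w a`: the shorter one occurs in `w` -/
lemma infix_of_two {w : List Bool} {a : Bool} {p q : List Bool} (hp : p <:+ w ++ [a])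
    (hq : q <:+ w ++ [a]) (hpp : p.reverse = p) (hqq : q.reverse = q)
    (hlt : q.length < p.length) : q <:+: w := by
  -- `q` is a suffix of `p`, hence a prefix of `p`
  have h1 : q <:+ p := List.suffix_of_suffix_length_le hq hp hlt.le
  have h2 : q <+: p := by
    rw [← List.reverse_suffix, hqq, hpp]
    exact h1
  -- `p = p' a` with `p'` a suffix of `w`
  rcases List.eq_nil_or_concat p with h | ⟨p', b, hb⟩
  · rw [h] at hlt
    simp at hlt
  · have hb' : p = p' ++ [b] := by simpa using hb
    rw [hb'] at hp h2 hlt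
    have h3 : p' <:+ w := by
      obtain ⟨r, hr⟩ := hp
      rw [← List.append_assoc] at hr
      have := List.append_inj' hr rfl
      exact ⟨r, this.1⟩
    have h4 : q <+: p' := by
      apply List.prefix_of_prefix_length_le h2 (List.prefix_append _ _)
      simp at hlt
      omega
    exact h4.isInfix.trans h3.isInfix

lemma palFactors_concat_le (w : List Bool) (a : Bool) :
    (palFactors (w ++ [a])).ncard ≤ (palFactors w).ncard + 1 := by
  by_cases h : palFactors (w ++ [a]) ⊆ palFactors w
  · exact (Set.ncard_le_ncard h (palFactors_finite w)).trans (Nat.le_succ _)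
  · obtain ⟨p, hp, hp'⟩ := Set.not_subset.1 h
    have key : palFactors (w ++ [a]) ⊆ insert p (palFactors w) := by
      intro q hq
      by_cases hqw : q ∈ palFactors w
      · exact Set.mem_insert_of_mem _ hqw
      · have hqs : q <:+ w ++ [a] := by
          rcases List.infix_concat_iff.1 hq.1 with h1 | h1
          · exact h1
          · exact absurd ⟨h1, hq.2⟩ hqw
        have hps : p <:+ w ++ [a] := by
          rcases List.infix_concat_iff.1 hp.1 with h1 | h1
          · exact h1
          · exact absurd ⟨h1, hp.2⟩ hp'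
        rcases lt_trichotomy q.length p.length with hl | hl | hl
        · exact absurd ⟨infix_of_two hps hqs hp.2 hq.2 hl, hq.2⟩ hqw
        · left
          exact (List.suffix_of_suffix_length_le hqs hps hl.le).eq_of_length hl
        · exact absurd ⟨infix_of_two hqs hps hq.2 hp.2 hl, hp.2⟩ hp'
    calc (palFactors (w ++ [a])).ncard ≤ (insert p (palFactors w)).ncard :=
          Set.ncard_le_ncard key ((palFactors_finite w).insert _)
      _ ≤ (palFactors w).ncard + 1 := Set.ncard_insert_le _ _

lemma palFactors_nil : palFactors [] = {[]} := by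
  ext p
  simp only [palFactors, Set.mem_ofPred_eq, List.infix_nil, Set.mem_singleton_iff]
  constructor
  · rintro ⟨h, -⟩
    exact h
  · intro h
    exact ⟨h, by rw [h]; rfl⟩

lemma isRich_nil : IsRich [] := by
  unfold IsRich
  rw [palFactors_nil]
  simp

lemma ncard_le (w : List Bool) : (palFactors w).ncard ≤ w.length + 1 := by
  induction w using List.reverseRecOn with
  | nil => exact isRich_nil.le
  | append_singleton w a ih =>
    have := palFactors_concat_le w a
    simp only [List.length_append, List.length_cons, List.length_nil]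
    omega

/-- a palindromic suffix of `w a` not occurring in `w` makes `w a` rich if `w` is -/
lemma isRich_concat {w : List Bool} (hw : IsRich w) {a : Bool} {p : List Bool}
    (hp : p <:+ w ++ [a]) (hpp : p.reverse = p) (hn : ¬ p <:+: w) : IsRich (w ++ [a]) := by
  unfold IsRich at *
  apply le_antisymm (ncard_le _)
  have h1 : insert p (palFactors w) ⊆ palFactors (w ++ [a]) := by
    intro q hq
    rcases Set.mem_insert_iff.1 hq with h | h
    · rw [h]
      exact ⟨hp.isInfix, hpp⟩
    · exact ⟨List.infix_concat_iff.2 (Or.inr h.1), h.2⟩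
  have h2 := Set.ncard_le_ncard h1 (palFactors_finite _)
  rw [Set.ncard_insert_of_notMem (fun h => hn h.1) (palFactors_finite w), hw] at h2
  simpa using h2

lemma isRich_of_concat {w : List Bool} {a : Bool} (h : IsRich (w ++ [a])) : IsRich w := by
  unfold IsRich at *
  have h1 := palFactors_concat_le w a
  have h2 := ncard_le w
  simp only [List.length_append, List.length_cons, List.length_nil] at h
  omega

lemma isRich_of_cons {w : List Bool} {a : Bool} (h : IsRich (a :: w)) : IsRich w := by
  rw [← isRich_reverse] at h ⊢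
  rw [List.reverse_cons] at h
  exact isRich_of_concat h

lemma isRich_of_prefix {v w : List Bool} (h : IsRich (v ++ w)) : IsRich v := by
  induction w using List.reverseRecOn with
  | nil => simpa using h
  | append_singleton w a ih =>
    apply ih
    rw [← List.append_assoc] at h
    exact isRich_of_concat h

lemma isRich_of_suffix {v w : List Bool} (h : IsRich (v ++ w)) : IsRich w := by
  induction v with
  | nil => simpa using h
  | cons a v ih => exact ih (isRich_of_cons h)

lemma isRich_of_infix {v w : List Bool} (h : IsRich w) (hv : v <:+: w) : IsRich v := by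
  obtain ⟨s, t, rfl⟩ := hv
  exact isRich_of_suffix (isRich_of_prefix h)

/-- the factor `V(i) V(i+1) ⋯ V(i+n-1)` of a two-way infinite word -/
def seg (V : ℤ → Bool) (i : ℤ) (n : ℕ) : List Bool := (List.range n).map fun t : ℕ => V (i + t)

lemma seg_length (V : ℤ → Bool) (i : ℤ) (n : ℕ) : (seg V i n).length = n := by simp [seg]

lemma seg_getElem (V : ℤ → Bool) (i : ℤ) (n : ℕ) (e : ℕ) (he : e < (seg V i n).length) :
    (seg V i n)[e] = V (i + e) := by
  simp [seg]

lemma seg_succ (V : ℤ → Bool) (i : ℤ) (n : ℕ) : seg V i (n + 1) = seg V i n ++ [V (i + n)] := by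
  simp [seg, List.range_succ]

lemma seg_add (V : ℤ → Bool) (i : ℤ) (a m : ℕ) :
    seg V i (a + m) = seg V i a ++ seg V (i + a) m := by
  induction m with
  | zero => simp [seg]
  | succ m ih =>
    rw [← Nat.add_assoc, seg_succ, ih, seg_succ, List.append_assoc]
    push_cast
    rw [add_assoc]

lemma seg_reverse (V : ℤ → Bool) (c i : ℤ) (n : ℕ) :
    (seg V i n).reverse = seg (fun t => V (c - t)) (c + 1 - i - n) n := by
  apply List.ext_getElem
  · simp [seg_length]
  · intro e h1 h2
    rw [List.getElem_reverse, seg_getElem, seg_getElem]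
    congr 1
    rw [List.length_reverse] at h1
    rw [seg_length] at h1 ⊢
    omega

lemma seg_infix (V : ℤ → Bool) (i j : ℤ) (n m : ℕ) (h1 : i ≤ j) (h2 : j + m ≤ i + n) :
    seg V j m <:+: seg V i n := by
  refine ⟨seg V i (j - i).toNat, seg V (j + m) (i + n - j - m).toNat, ?_⟩
  have e1 : j = i + ((j - i).toNat : ℤ) := by omega
  have e2 : seg V i ((j - i).toNat + m) = seg V i (j - i).toNat ++ seg V j m := by
    rw [seg_add, ← e1]
  rw [← e2]
  have e3 : j + m = i + (((j - i).toNat + m : ℕ) : ℤ) := by omega
  rw [e3, ← seg_add]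
  congr 1
  omega

/-- certificate: the longest palindromic suffix `V[j..k]` of `V[i..k]` has no earlier occurrence -/
def Cert (V : ℤ → Bool) (i k : ℤ) : Prop :=
  ∃ j, i ≤ j ∧ j ≤ k ∧ (∀ t, j ≤ t → t ≤ k → V (j + k - t) = V t) ∧
    ∀ s, 1 ≤ s → s ≤ j - i → ∃ t, j ≤ t ∧ t ≤ k ∧ V (t - s) ≠ V t

lemma isRich_seg_succ {V : ℤ → Bool} {i : ℤ} {n : ℕ} (h : IsRich (seg V i n))
    (hc : Cert V i (i + n)) : IsRich (seg V i (n + 1)) := by
  obtain ⟨j, h1, h2, h3, h4⟩ := hc
  rw [seg_succ]
  set m : ℕ := (i + n - j + 1).toNat with hm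
  have hsuf : seg V j m <:+ seg V i n ++ [V (i + n)] := by
    rw [← seg_succ]
    refine ⟨seg V i (j - i).toNat, ?_⟩
    have e1 : j = i + ((j - i).toNat : ℤ) := by omega
    have e2 : seg V i ((j - i).toNat + m) = seg V i (j - i).toNat ++ seg V j m := by
      rw [seg_add, ← e1]
    rw [← e2]
    congr 1
    omega
  refine isRich_concat h hsuf ?_ ?_
  · apply List.ext_getElem
    · simp
    · intro e he1 he2
      rw [List.getElem_reverse, seg_getElem, seg_getElem]
      rw [seg_length] at he2 ⊢
      have := h3 (j + e) (by omega) (by omega)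
      rw [← this]
      congr 1
      omega
  · rintro ⟨s, t, hst⟩
    have hlen := congrArg List.length hst
    simp only [List.length_append, seg_length] at hlen
    have hs : 1 ≤ j - i - s.length := by omega
    obtain ⟨x, hx1, hx2, hx3⟩ := h4 (j - i - s.length) hs (by omega)
    apply hx3
    have he : (x - j).toNat < m := by omega
    have e1 : (s ++ seg V j m ++ t)[s.length + (x - j).toNat]'(by
        simp only [List.length_append, seg_length]; omega) =
        (seg V i n)[s.length + (x - j).toNat]'(by rw [seg_length]; omega) := by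
      congr 1
    rw [seg_getElem] at e1
    rw [List.getElem_append_left (by simp only [List.length_append, seg_length]; omega),
      List.getElem_append_right (by omega), seg_getElem] at e1
    have e2 : j + ((s.length + (x - j).toNat - s.length : ℕ) : ℤ) = x := by omega
    have e3 : i + ((s.length + (x - j).toNat : ℕ) : ℤ) = x - (j - i - s.length) := by
      push_cast
      omega
    rw [e2, e3] at e1
    exact e1.symm

/-- certificates for `(i - 5 m, k + 5 m)`, symmetric type -/
def CertS (V : ℤ → Bool) (i k : ℤ) : Prop :=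
  ∃ j, i ≤ j ∧ j + 4 ≤ k ∧ j ≤ 0 ∧ (∀ t, j ≤ t → t ≤ k → V (j + k - t) = V t) ∧
    ∀ s, 1 ≤ s → s ≤ j - i → ∃ t, j ≤ t ∧ t ≤ k ∧ V (t - s) ≠ V t

/-- certificates for `(i - 5 m, k + 5 m)`, tail type -/
def CertT (V : ℤ → Bool) (i k : ℤ) : Prop :=
  ∃ j, i + 5 ≤ j ∧ j + 4 ≤ k ∧ (∀ t, j ≤ t → V (t + 5) = V t) ∧
    (∀ t, j ≤ t → t ≤ k → V (j + k - t) = V t) ∧
    ∀ s, 1 ≤ s → s ≤ j - i → ∃ t, j ≤ t ∧ t ≤ k ∧ V (t - s) ≠ V t

lemma CertS.step {V : ℤ → Bool} {i k : ℤ} (hl : ∀ t, t ≤ 4 → V (t - 5) = V t)
    (hr : ∀ t, 2 ≤ t → V (t + 5) = V t) (hk : 6 ≤ k) (h : CertS V i k) :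
    CertS V (i - 5) (k + 5) := by
  obtain ⟨j, h1, h2, h3, h4, h5⟩ := h
  refine ⟨j - 5, by omega, by omega, by omega, ?_, ?_⟩
  · intro t ht1 ht2
    have e : j - 5 + (k + 5) - t = j + k - t := by ring
    rw [e]
    rcases lt_or_ge t j with hc | hc
    · have a1 := hr (j + k - t - 5) (by omega)
      have a2 := hl (t + 5) (by omega)
      have a3 := h4 (t + 5) (by omega) (by omega)
      have b1 : j + k - t - 5 + 5 = j + k - t := by ring
      have b2 : t + 5 - 5 = t := by ring
      have b3 : j + k - (t + 5) = j + k - t - 5 := by ring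
      rw [b1] at a1
      rw [b2] at a2
      rw [b3] at a3
      rw [a1, a2, a3]
    · rcases le_or_gt t k with hc2 | hc2
      · exact h4 t hc hc2
      · have a1 := hl (j + k - t + 5) (by omega)
        have a2 := hr (t - 5) (by omega)
        have a3 := h4 (t - 5) (by omega) (by omega)
        have b1 : j + k - t + 5 - 5 = j + k - t := by ring
        have b2 : t - 5 + 5 = t := by ring
        have b3 : j + k - (t - 5) = j + k - t + 5 := by ring
        rw [b1] at a1
        rw [b2] at a2
        rw [b3] at a3
        rw [a1, a2, a3]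
  · intro s hs1 hs2
    obtain ⟨t, ht1, ht2, ht3⟩ := h5 s hs1 (by omega)
    exact ⟨t, by omega, by omega, ht3⟩

lemma CertT.step {V : ℤ → Bool} {i k : ℤ} (h : CertT V i k) : CertT V (i - 5) (k + 5) := by
  obtain ⟨j, h1, h2, h3, h4, h5⟩ := h
  refine ⟨j, by omega, by omega, h3, ?_, ?_⟩
  · intro t ht1 ht2
    rcases le_or_gt t k with hc | hc
    · have a1 := h3 (j + k - t) (by omega)
      have b1 : j + k - t + 5 = j + (k + 5) - t := by ring
      rw [b1] at a1
      rw [a1]
      exact h4 t ht1 hc
    · have a1 := h3 (t - 5) (by omega)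
      have a2 := h4 (t - 5) (by omega) (by omega)
      have b1 : t - 5 + 5 = t := by ring
      have b2 : j + k - (t - 5) = j + (k + 5) - t := by ring
      rw [b1] at a1
      rw [b2] at a2
      rw [a1, a2]
  · intro s hs1 hs2
    rcases le_or_gt s (j - i) with hc | hc
    · obtain ⟨t, ht1, ht2, ht3⟩ := h5 s hs1 hc
      exact ⟨t, by omega, by omega, ht3⟩
    · obtain ⟨t, ht1, ht2, ht3⟩ := h5 (s - 5) (by omega) (by omega)
      refine ⟨t + 5, by omega, by omega, ?_⟩
      rw [h3 t ht1]
      have b1 : t + 5 - s = t - (s - 5) := by ring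
      rw [b1]
      exact ht3

lemma cert_all {V : ℤ → Bool} {i k : ℤ} (hl : ∀ t, t ≤ 4 → V (t - 5) = V t)
    (hr : ∀ t, 2 ≤ t → V (t + 5) = V t) (hk : 6 ≤ k) (h : CertS V i k ∨ CertT V i k) (m : ℕ) :
    Cert V (i - 5 * m) (k + 5 * m) := by
  have key : CertS V (i - 5 * m) (k + 5 * m) ∨ CertT V (i - 5 * m) (k + 5 * m) := by
    induction m with
    | zero => simpa using h
    | succ m ih =>
      have e1 : i - 5 * ((m + 1 : ℕ) : ℤ) = i - 5 * m - 5 := by push_cast; ring
      have e2 : k + 5 * ((m + 1 : ℕ) : ℤ) = k + 5 * m + 5 := by push_cast; ring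
      rw [e1, e2]
      rcases ih with h | h
      · exact Or.inl (h.step hl hr (by omega))
      · exact Or.inr h.step
  rcases key with ⟨j, h1, h2, h3, h4, h5⟩ | ⟨j, h1, h2, h3, h4, h5⟩
  · exact ⟨j, h1, by omega, h4, h5⟩
  · exact ⟨j, by omega, by omega, h4, h5⟩

/-- the index map `⋯ 01234 01234 0123456 23456 23456 ⋯` (the middle block is at `0..6`) -/
def sig (t : ℤ) : ℕ :=
  if t < 0 then (t % 5).toNat else if t ≤ 6 then t.toNat else 2 + ((t - 2) % 5).toNat

lemma sig_lt (t : ℤ) : sig t < 7 := by
  unfold sig
  split_ifs <;> omega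

lemma sig_sub {t : ℤ} (h : t ≤ 4) : sig (t - 5) = sig t := by
  unfold sig
  split_ifs <;> omega

lemma sig_add {t : ℤ} (h : 2 ≤ t) : sig (t + 5) = sig t := by
  unfold sig
  split_ifs <;> omega

lemma sig_reflect (t : ℤ) : sig (6 - t) = 6 - sig t := by
  unfold sig
  split_ifs <;> omega

/-- is `V[j..k]` a palindrome? -/
def pal (V : ℤ → Bool) (j k : ℤ) : Bool :=
  (List.range (k - j + 1).toNat).all fun e : ℕ => V (k - e) == V (j + e)

/-- does `V[j..k]` have no earlier occurrence in `V[i..k]`? -/
def mis (V : ℤ → Bool) (i j k : ℤ) : Bool :=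
  (List.range (j - i).toNat).all fun s : ℕ =>
    (List.range (k - j + 1).toNat).any fun e : ℕ => V (j + e - (s + 1)) != V (j + e)

/-- Boolean version of `Cert` -/
def chk0 (V : ℤ → Bool) (i k : ℤ) : Bool :=
  (List.range (k - i + 1).toNat).any fun a : ℕ => pal V (i + a) k && mis V i (i + a) k

/-- Boolean version of `CertS ∨ CertT` -/
def chk (V : ℤ → Bool) (i k : ℤ) : Bool :=
  (List.range (k - i - 3).toNat).any fun a : ℕ =>
    (decide (i + a ≤ 0) ||
      (decide (i + 5 ≤ i + a) && (decide (2 ≤ i + a) || (V 6 == V 1)))) &&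
    pal V (i + a) k && mis V i (i + a) k

lemma of_pal {V : ℤ → Bool} {j k : ℤ} (h : pal V j k = true) :
    ∀ t, j ≤ t → t ≤ k → V (j + k - t) = V t := by
  intro t h1 h2
  unfold pal at h
  rw [List.all_eq_true] at h
  have := h (t - j).toNat (by rw [List.mem_range]; omega)
  rw [beq_iff_eq] at this
  have e1 : k - ((t - j).toNat : ℤ) = j + k - t := by omega
  have e2 : j + ((t - j).toNat : ℤ) = t := by omega
  rwa [e1, e2] at this

lemma of_mis {V : ℤ → Bool} {i j k : ℤ} (h : mis V i j k = true) :
    ∀ s, 1 ≤ s → s ≤ j - i → ∃ t, j ≤ t ∧ t ≤ k ∧ V (t - s) ≠ V t := by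
  intro s h1 h2
  unfold mis at h
  rw [List.all_eq_true] at h
  have := h (s - 1).toNat (by rw [List.mem_range]; omega)
  rw [List.any_eq_true] at this
  obtain ⟨e, he, hV⟩ := this
  rw [List.mem_range] at he
  refine ⟨j + e, by omega, by omega, ?_⟩
  have e1 : j + (e : ℤ) - (((s - 1).toNat : ℤ) + 1) = j + e - s := by omega
  rw [e1] at hV
  simpa using hV

lemma of_chk0 {V : ℤ → Bool} {i k : ℤ} (h : chk0 V i k = true) : Cert V i k := by
  unfold chk0 at h
  rw [List.any_eq_true] at h
  obtain ⟨a, ha, h⟩ := h
  rw [List.mem_range] at ha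
  rw [Bool.and_eq_true] at h
  exact ⟨i + a, by omega, by omega, of_pal h.1, of_mis h.2⟩

lemma of_chk {V : ℤ → Bool} {i k : ℤ} (hr : ∀ t, 2 ≤ t → V (t + 5) = V t)
    (h : chk V i k = true) : CertS V i k ∨ CertT V i k := by
  unfold chk at h
  rw [List.any_eq_true] at h
  obtain ⟨a, ha, h⟩ := h
  rw [List.mem_range] at ha
  simp only [Bool.and_eq_true, Bool.or_eq_true, decide_eq_true_eq, beq_iff_eq] at h
  obtain ⟨⟨h1, h2⟩, h3⟩ := h
  rcases h1 with h1 | ⟨h1, h4⟩
  · exact Or.inl ⟨i + a, by omega, by omega, h1, of_pal h2, of_mis h3⟩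
  · by_cases h0 : i + (a : ℤ) ≤ 0
    · exact Or.inl ⟨i + a, by omega, by omega, h0, of_pal h2, of_mis h3⟩
    · right
      refine ⟨i + a, h1, by omega, ?_, of_pal h2, of_mis h3⟩
      intro t ht
      rcases h4 with h4 | h4
      · exact hr t (by omega)
      · rcases le_or_gt 2 t with h5 | h5
        · exact hr t h5
        · have : t = 1 := by omega
          rw [this]
          exact h4

/-- the word obtained from seven letters -/
def word (b0 b1 b2 b3 b4 b5 b6 : Bool) (t : ℤ) : Bool :=
  match sig t with
  | 0 => b0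
  | 1 => b1
  | 2 => b2
  | 3 => b3
  | 4 => b4
  | 5 => b5
  | _ => b6

/-- all the checks -/
def allchk (V : ℤ → Bool) : Bool :=
  ((List.range 17).all fun e : ℕ => chk0 V (-5) (-5 + e)) &&
    (List.range 5).all fun r : ℕ => chk V (-5) (12 + r) && chk V (-10) (12 + r)

set_option maxRecDepth 100000 in
theorem allchk_word : ∀ b0 b1 b2 b3 b4 b5 b6 : Bool, allchk (word b0 b1 b2 b3 b4 b5 b6) = true := by
  decide +kernel

/-- the two-way infinite word with index map `sig` -/
def ext (u : ℕ → Bool) (t : ℤ) : Bool := u (sig t)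

lemma ext_eq_word (u : ℕ → Bool) : ext u = word (u 0) (u 1) (u 2) (u 3) (u 4) (u 5) (u 6) := by
  funext t
  unfold ext word
  have h := sig_lt t
  generalize sig t = n at h
  interval_cases n <;> rfl

lemma allchk_ext (u : ℕ → Bool) : allchk (ext u) = true := by
  rw [ext_eq_word]
  exact allchk_word _ _ _ _ _ _ _

lemma ext_sub (u : ℕ → Bool) : ∀ t, t ≤ 4 → ext u (t - 5) = ext u t := by
  intro t ht
  unfold ext
  rw [sig_sub ht]

lemma ext_add (u : ℕ → Bool) : ∀ t, 2 ≤ t → ext u (t + 5) = ext u t := by
  intro t ht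
  unfold ext
  rw [sig_add ht]

lemma cert_zero (u : ℕ → Bool) (e : ℕ) (he : e < 17) : Cert (ext u) (-5) (-5 + e) := by
  have h := allchk_ext u
  unfold allchk at h
  rw [Bool.and_eq_true, List.all_eq_true] at h
  exact of_chk0 (h.1 e (List.mem_range.2 he))

lemma cert_right (u : ℕ → Bool) (r m : ℕ) (hr : r < 5) :
    Cert (ext u) (-5 - 5 * m) (12 + r + 5 * m) := by
  have h := allchk_ext u
  unfold allchk at h
  rw [Bool.and_eq_true, List.all_eq_true, List.all_eq_true] at h
  have h2 := h.2 r (List.mem_range.2 hr)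
  rw [Bool.and_eq_true] at h2
  exact cert_all (ext_sub u) (ext_add u) (by omega) (of_chk (ext_add u) h2.1) m

lemma cert_right' (u : ℕ → Bool) (r m : ℕ) (hr : r < 5) :
    Cert (ext u) (-10 - 5 * m) (12 + r + 5 * m) := by
  have h := allchk_ext u
  unfold allchk at h
  rw [Bool.and_eq_true, List.all_eq_true, List.all_eq_true] at h
  have h2 := h.2 r (List.mem_range.2 hr)
  rw [Bool.and_eq_true] at h2
  exact cert_all (ext_sub u) (ext_add u) (by omega) (of_chk (ext_add u) h2.2) m

lemma rich_base (u : ℕ → Bool) : IsRich (seg (ext u) (-5) 17) := by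
  have h : ∀ e : ℕ, e ≤ 17 → IsRich (seg (ext u) (-5) e) := by
    intro e
    induction e with
    | zero =>
      intro _
      exact isRich_nil
    | succ e ih =>
      intro he
      exact isRich_seg_succ (ih (by omega)) (cert_zero u e (by omega))
  exact h 17 le_rfl

lemma rich_window (m : ℕ) : ∀ u : ℕ → Bool,
    IsRich (seg (ext u) (-5 - 5 * m) (10 * m + 17)) := by
  induction m with
  | zero =>
    intro u
    simpa using rich_base u
  | succ m ih =>
    have hA : ∀ u : ℕ → Bool, IsRich (seg (ext u) (-5 - 5 * m) (10 * m + 22)) := by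
      intro u
      have h : ∀ r : ℕ, r ≤ 5 → IsRich (seg (ext u) (-5 - 5 * m) (10 * m + 17 + r)) := by
        intro r
        induction r with
        | zero =>
          intro _
          exact ih u
        | succ r ihr =>
          intro hr
          have hc := cert_right u r m (by omega)
          have e : (12 : ℤ) + r + 5 * m = -5 - 5 * m + ((10 * m + 17 + r : ℕ) : ℤ) := by
            push_cast
            ring
          rw [e] at hc
          exact isRich_seg_succ (ihr (by omega)) hc
      exact h 5 le_rfl
    have hB : ∀ u : ℕ → Bool, IsRich (seg (ext u) (-10 - 5 * m) (10 * m + 22)) := by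
      intro u
      have h := hA (fun n => u (6 - n))
      rw [← isRich_reverse, seg_reverse _ 6] at h
      have e1 : (fun t => ext (fun n => u (6 - n)) (6 - t)) = ext u := by
        funext t
        unfold ext
        rw [sig_reflect]
        change u (6 - (6 - sig t)) = u (sig t)
        have := sig_lt t
        congr 1
        omega
      have e2 : (6 : ℤ) + 1 - (-5 - 5 * m) - ((10 * m + 22 : ℕ) : ℤ) = -10 - 5 * m := by
        push_cast
        ring
      rw [e1, e2] at h
      exact h
    intro u
    have h : ∀ r : ℕ, r ≤ 5 → IsRich (seg (ext u) (-10 - 5 * m) (10 * m + 22 + r)) := by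
      intro r
      induction r with
      | zero =>
        intro _
        exact hB u
      | succ r ihr =>
        intro hr
        have hc := cert_right' u r m (by omega)
        have e : (12 : ℤ) + r + 5 * m = -10 - 5 * m + ((10 * m + 22 + r : ℕ) : ℤ) := by
          push_cast
          ring
        rw [e] at hc
        exact isRich_seg_succ (ihr (by omega)) hc
    have h5 := h 5 le_rfl
    have e1 : (-10 - 5 * m : ℤ) = -5 - 5 * ((m + 1 : ℕ) : ℤ) := by push_cast; ring
    have e2 : 10 * m + 22 + 5 = 10 * (m + 1) + 17 := by ring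
    rw [e1, e2] at h5
    exact h5

/-- every factor of the two-way infinite word `ext u` is rich -/
theorem rich_ext (u : ℕ → Bool) (i : ℤ) (n : ℕ) : IsRich (seg (ext u) i n) := by
  set m : ℕ := i.natAbs + n with hm
  refine isRich_of_infix (rich_window m u) (seg_infix _ _ _ _ _ ?_ ?_)
  · omega
  · push_cast
    omega

/-- **Q1: every binary `7 × 7` square extends to a rich plane.**  A two-dimensional binary word is a
map `w : ℤ → ℤ → Option Bool` (`none` is the empty cell `ε`). -/
theorem result (w : ℤ → ℤ → Option Bool) (i₀ j₀ : ℤ)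
    (hw : ∀ i j, w i j ≠ none → (i₀ ≤ i ∧ i ≤ i₀ + 6) ∧ (j₀ ≤ j ∧ j ≤ j₀ + 6)) :
    ∃ w' : ℤ → ℤ → Bool, (∀ i j a, w i j = some a → w' i j = a) ∧ IsRichPlane w' := by
  refine ⟨fun i j => (w (i₀ + sig (i - i₀)) (j₀ + sig (j - j₀))).getD false, ?_, ?_, ?_⟩
  · intro i j a h
    obtain ⟨⟨h1, h2⟩, h3, h4⟩ := hw i j (by rw [h]; simp)
    have e1 : i₀ + (sig (i - i₀) : ℤ) = i := by
      unfold sig
      split_ifs <;> omega
    have e2 : j₀ + (sig (j - j₀) : ℤ) = j := by
      unfold sig
      split_ifs <;> omega
    simp only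
    rw [e1, e2, h]
    rfl
  · intro i j n
    have h := rich_ext (fun m => (w (i₀ + sig (i - i₀)) (j₀ + m)).getD false) (j - j₀) n
    unfold seg ext at h
    have e : (fun t : ℕ => (w (i₀ + sig (i - i₀)) (j₀ + sig (j + t - j₀))).getD false) =
        fun t : ℕ => (w (i₀ + sig (i - i₀)) (j₀ + sig (j - j₀ + t))).getD false := by
      funext t
      rw [show j + (t : ℤ) - j₀ = j - j₀ + t by ring]
    rw [e]
    exact h
  · intro i j n
    have h := rich_ext (fun m => (w (i₀ + m) (j₀ + sig (j - j₀))).getD false) (i - i₀) n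
    unfold seg ext at h
    have e : (fun t : ℕ => (w (i₀ + sig (i + t - i₀)) (j₀ + sig (j - j₀))).getD false) =
        fun t : ℕ => (w (i₀ + sig (i - i₀ + t)) (j₀ + sig (j - j₀))).getD false := by
      funext t
      rw [show i + (t : ℤ) - i₀ = i - i₀ + t by ring]
    rw [e]
    exact h

end Pool.Agent.Results.MP_0bf243_co.RichPlane
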